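import Pool.Agent.Helper9.UNI.Sheet
import Pool.Agent.Helper66.LS5.CONC

/-!
Project UNI, row CONCu: the regulator and the concentration of the discriminant, constants
depending on the degree of the field and the number of points only.
-/

set_option autoImplicit false

open Filter Topology NumberField

namespace Pool.Agent.Helper66.UNI

open Pool.Agent.Helper42.LS Pool.Agent.Helper42.LK Pool.Agent.Helper54.LM Pool.Agent.Helper9.LS5
  Pool.Agent.Helper66.LS5 Pool.Agent.Helper9.UNI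

theorem CONCu (hMT : ST_LMT3u) (hF : ST_CFIN) (hS : ST_SGN) (hREG : ST_LREGu) (hDF : ST_KDF)
    (hSIX : ST_SIX) : ST_CONCu := by
  classical
  intro D₀ m hm
  obtain ⟨C₀, hC₀, hM⟩ := hMT D₀ m
  obtain ⟨c₀, hc₀, hR⟩ := hREG D₀ m hm
  obtain ⟨N, hN⟩ : ∃ N : ℝ, N = (D₀ : ℝ) := ⟨_, rfl⟩
  have hN0 : 0 ≤ N := by rw [hN]; exact Nat.cast_nonneg _
  obtain ⟨D, hD⟩ : ∃ D : ℝ, D = 3 + 2 ^ m + 2 * C₀ ^ 2 + 2 * C₀ + N := ⟨_, rfl⟩
  have h2m : (0 : ℝ) < 2 ^ m := by positivity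
  have hC2 : 0 ≤ C₀ ^ 2 := sq_nonneg _
  obtain ⟨c, hc, hfin⟩ := hF m hm D c₀ (by rw [hD]; linarith) hc₀
  refine ⟨c, hc, ?_⟩
  intro K _ _ hKD A B hAB X Y G hg hsymm hcan T
  have hKN : (Fintype.card (InfinitePlace K) : ℝ) ≤ N := by
    rw [hN]
    exact_mod_cast ((hSIX K).2.2.2.2.2).trans hKD
  obtain ⟨T₀, wf, tf, ti, hT₀, hw0, hwC, hex, hmain⟩ := hM K hKD A B hAB X Y (qf G) hg hcan
  obtain ⟨-, hloc, -, hH1, hH2⟩ := hDF K A B hAB
  have hdl : ∀ v : FinitePlace K, 0 ≤ dl (fun z : K => v z) A B := fun v => (hloc v).1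
  have hHK0 : 0 ≤ HK A B := HK_nonneg hDF K hAB
  have hreg := hR K hKD A B hAB X Y G hg hsymm hcan
  have hpow : 0 < (1 + HK A B) ^ gam m := Real.rpow_pos_of_pos (by linarith) _
  have hdet : 0 < G.det := lt_of_lt_of_le (mul_pos hc₀ hpow) hreg
  -- the form is positive definite
  have hpos : ∀ k : Fin m → ℤ, 0 ≤ qf G k := by
    intro k
    by_cases hk : k = 0
    · subst hk
      unfold qf
      simp
    · exact can_nonneg' (hcan k hk)
  have hpd : G.PosDef := (LREG_psd hsymm hpos).posDef_iff_det_ne_zero.2 hdet.ne'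
  -- the archimedean weights
  obtain ⟨a, ha⟩ : ∃ a : InfinitePlace K → ℝ, a = fun w : InfinitePlace K =>
    (w.mult : ℝ) * max 0 (Real.log (w (6912 * A ^ 3 / dsc A B))) := ⟨_, rfl⟩
  have ha0 : ∀ w, 0 ≤ a w := fun w => by
    rw [ha]; exact mul_nonneg (Nat.cast_nonneg _) (le_max_left _ _)
  have harw : arw A B = ∑ w, a w := by rw [ha]; rfl
  have hsa : ∑ w : InfinitePlace K, (w.mult : ℝ) *
      max 0 (Real.log (w (6912 * A ^ 3 / dsc A B))) = ∑ w, a w := by rw [ha]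
  have hLD : LD A B = ∑ v ∈ T₀, dl (fun z : K => v z) A B := by
    unfold LD
    apply finsum_eq_sum_of_support_subset
    intro v hv
    by_contra h'
    exact hv (hT₀ v (by simpa using h')).2.2
  have habs : |∑ v ∈ T₀, wf v - LD A B| ≤ C₀ := by
    rw [hLD, ← Finset.sum_sub_distrib]
    exact (Finset.abs_sum_le_sum_abs _ _).trans hwC
  have habs' := abs_le.1 habs
  obtain ⟨w, hw⟩ : ∃ w : FinitePlace K ⊕ InfinitePlace K → ℝ, w = Sum.elim wf a := ⟨_, rfl⟩
  obtain ⟨t, ht⟩ : ∃ t : FinitePlace K ⊕ InfinitePlace K → Fin m → ℝ, t = Sum.elim tf ti :=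
    ⟨_, rfl⟩
  have hsw : ∑ v ∈ T₀.disjSum (Finset.univ : Finset (InfinitePlace K)), w v =
      ∑ v ∈ T₀, wf v + ∑ u, a u := by
    rw [Finset.sum_disjSum, hw]
    simp only [Sum.elim_inl, Sum.elim_inr]
  have hw' : ∀ v, 0 ≤ w v := by
    rw [hw]
    rintro (v | u)
    · exact hw0 v
    · exact ha0 u
  have hsa0 : 0 ≤ ∑ u, a u := Finset.sum_nonneg fun u _ => ha0 u
  rw [hsa] at hH1 hH2
  have hrho : rho A B (fun i => X (Pi.single i 1)) T * (1 + HK A B) ^ 2 =
      1 + arw A B ^ 2 + prs T (fun v => dl (fun z : K => v z) A B)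
        (Sm A B fun i => X (Pi.single i 1)) := by
    unfold rho
    rw [div_mul_cancel₀]
    have : (0 : ℝ) < 1 + HK A B := by linarith
    positivity
  have hprs0 : 0 ≤ prs T (fun v => dl (fun z : K => v z) A B)
      (Sm A B fun i => X (Pi.single i 1)) := prs_nonneg fun v _ => hdl v
  have hrho0 : 0 ≤ rho A B (fun i => X (Pi.single i 1)) T := by
    unfold rho
    have := sq_nonneg (arw A B)
    exact div_nonneg (by linarith) (sq_nonneg _)
  refine hfin G (FinitePlace K ⊕ InfinitePlace K)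
    (T₀.disjSum (Finset.univ : Finset (InfinitePlace K))) w t (HK A B)
    (rho A B (fun i => X (Pi.single i 1)) T) hpd hHK0 hrho0 (fun v _ => hw' v) ?_ ?_ ?_ ?_ hreg
  · rw [hsw, hD]
    nlinarith [habs'.1, habs'.2]
  · rw [hsw, hD]
    nlinarith [habs'.1, habs'.2]
  · rw [hrho]
    have h1 := conc_prs hS (x := fun i => X (Pi.single i 1)) hdl (fun v hv => (hT₀ v hv).2.2)
      hw0 hwC hex T
    have h2 := prs_disjSum (S := T₀) (U := (Finset.univ : Finset (InfinitePlace K))) (a := wf)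
      (b := a) (R := fun v v' => ∀ i, ∃ n : ℤ, t v i = t v' i + n) (fun v _ => hw0 v)
      (fun u _ => ha0 u) (fun u i => ⟨0, by simp⟩)
    have h3 : arw A B ^ 2 ≤ N * ∑ u, a u ^ 2 := by
      rw [harw]
      have := sq_sum_le_card_mul_sum_sq (s := (Finset.univ : Finset (InfinitePlace K))) (f := a)
      rw [Finset.card_univ] at this
      exact this.trans (mul_le_mul_of_nonneg_right hKN
        (Finset.sum_nonneg fun u _ => sq_nonneg _))
    have h4 : prs T₀ wf (fun v v' => ∀ i, ∃ n : ℤ, t (Sum.inl v) i = t (Sum.inl v') i + n) =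
        prs T₀ wf (fun v v' => ∀ i, ∃ n : ℤ, tf v i = tf v' i + n) := by rw [ht]; rfl
    rw [h4, ← hw] at h2
    obtain ⟨p, hp⟩ : ∃ p : ℝ, p = prs T₀ wf (fun v v' => ∀ i, ∃ n : ℤ, tf v i = tf v' i + n) :=
      ⟨_, rfl⟩
    obtain ⟨q, hq⟩ : ∃ q : ℝ, q = ∑ u, a u ^ 2 := ⟨_, rfl⟩
    obtain ⟨P, hP⟩ : ∃ P : ℝ, P = prs (T₀.disjSum (Finset.univ : Finset (InfinitePlace K))) w
      (fun v v' => ∀ i, ∃ n : ℤ, t v i = t v' i + n) := ⟨_, rfl⟩
    rw [← hp] at h1 h2
    rw [← hq] at h2 h3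
    rw [← hP] at h2 ⊢
    have hp0 : 0 ≤ p := by rw [hp]; exact prs_nonneg fun v _ => hw0 v
    have hq0 : 0 ≤ q := by rw [hq]; exact Finset.sum_nonneg fun u _ => sq_nonneg _
    have h5 : (2 + 2 ^ m) * p ≤ D * p := mul_le_mul_of_nonneg_right (by rw [hD]; linarith) hp0
    have h6 : N * q ≤ D * q := mul_le_mul_of_nonneg_right (by rw [hD]; nlinarith) hq0
    have hD0 : 0 ≤ D := by rw [hD]; nlinarith
    have h7 : D * (p + q) ≤ D * P := mul_le_mul_of_nonneg_left h2 hD0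
    have h8 : 1 + 2 * C₀ ^ 2 ≤ D := by rw [hD]; linarith
    linarith
  · intro k hk
    have h1 := hmain k hk
    rw [Finset.sum_disjSum, hw, ht]
    simp only [Sum.elim_inl, Sum.elim_inr]
    have h2 : C₀ ≤ D := by rw [hD]; linarith
    have h3 : ∑ u : InfinitePlace K, a u * B2 (pr k (ti u)) =
        ∑ w : InfinitePlace K, (w.mult : ℝ) * max 0 (Real.log (w (6912 * A ^ 3 / dsc A B))) *
        B2 (pr k (ti w)) := by rw [ha]
    rw [h3]
    linarith

end Pool.Agent.Helper66.UNI
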