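import Pool.Agent.Helper9.UNI.Sheet

/-!
Project UNI, row LMT3u: the master inequality for several points, all places identified, with a
constant depending on the degree of the field and the number of points only.
-/

set_option autoImplicit false

open Filter Topology NumberField

namespace Pool.Agent.Helper66.UNI

open Pool.Agent.Helper42.LS Pool.Agent.Helper42.LK Pool.Agent.Helper54.LM Pool.Agent.Helper9.LS5
  Pool.Agent.Helper66.LS5 Pool.Agent.Helper9.UNI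

/-- local package at a place of a number field, explicit away from 6 -/
lemma LMT_local2u (hLB : ST_LLB2) (hLS : ST_LLSu) (hFP : ST_KFP) (hSIX : ST_SIX) (K : Type)
    [Field K] [NumberField K]
    (v : FinitePlace K) : ∀ A B : K, dsc A B ≠ 0 →
    ∀ (m : ℕ) (X Y : (Fin m → ℤ) → K), GLat (0 : K) A B X Y →
    ∃ (w : ℝ) (t : Fin m → ℝ), 0 ≤ w ∧ |w - dl (fun x : K => v x) A B| ≤ 200 * l6 v ∧
    (v 2 = 1 → v 3 = 1 → w = dl (fun x : K => v x) A B ∧
      (IsMul (fun z : K => v z) A B → A ≠ 0 ∧ B ≠ 0 ∧ 0 < Real.log (v (jK A B)) ∧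
        dl (fun z : K => v z) A B = Real.log (v (jK A B))) ∧
      ∀ i, Sg (t i) (tz (fun z : K => v z) A B (X (Pi.single i 1)))) ∧
    ∀ k : Fin m → ℤ, k ≠ 0 → ∃ U : ℕ → ℝ,
    (∀ n : ℕ, 1 ≤ n → 4 * U n - 200 * l6 v ≤ U (2 * n) +
      Real.log (v (4 * cu A B (X (n • k))))) ∧
    (∃ C : ℝ, ∀ n : ℕ, 1 ≤ n → U n ≤ Real.log (max (v (X (n • k))) 1) + C) ∧
    (∀ n : ℕ, 1 ≤ n → w * B2 (n * pr k t) + 1 / 6 * Real.log (v (dsc A B)) - 200 * l6 v ≤
      U (12 * n)) := by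
  obtain ⟨V, hV, hq⟩ := hFP K v
  have hfun : V.nr = fun x : K => v x := funext hV
  intro A B hD m X Y hg
  classical
  by_cases h6 : v 2 = 1 ∧ v 3 = 1
  · have hε0 : l6 v = 0 := (hSIX K).2.1 v |>.2.1 h6.1 h6.2
    have h2 : V.ord 2 = 0 := (V.nr_eq_one_iff (by norm_num)).1 (by rw [hV]; exact h6.1)
    have h3 : V.ord 3 = 0 := (V.nr_eq_one_iff (by norm_num)).1 (by rw [hV]; exact h6.2)
    obtain ⟨t, h0, hmul, hsg, hU⟩ := hLB K V h2 h3 A B hD m X Y hg
    rw [hfun] at h0 hmul hsg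
    rw [hε0]
    refine ⟨dl (fun x : K => v x) A B, t, h0, by simp, fun _ _ => ⟨rfl, hmul, hsg⟩, ?_⟩
    intro k hk
    obtain ⟨U, hU1, hU2, hU3⟩ := hU k hk
    rw [hfun] at hU3
    simp only [hV] at hU1 hU2 hU3
    refine ⟨U, ?_, hU2, ?_⟩
    · intro n hn; have := hU1 n hn; linarith
    · intro n hn; have := hU3 n hn; linarith
  · have hord : ¬ (V.ord 2 = 0 ∧ V.ord 3 = 0) := by
      rintro ⟨h2, h3⟩
      apply h6
      rw [← hV, ← hV]
      exact ⟨(V.nr_eq_one_iff (by norm_num)).2 h2, (V.nr_eq_one_iff (by norm_num)).2 h3⟩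
    obtain ⟨w, t, N, h0, hw, hN, hint, hle, hU⟩ := hLS K V hord A B hD m X Y hg
    have hl6 : -Real.log (V.nr 6) = l6 v := by rw [hV]; rfl
    rw [hfun] at hw
    have hl6' : -Real.log (v (6 : K)) = l6 v := rfl
    simp only [hV, hl6'] at hw hU
    refine ⟨w, t, h0, hw, fun h2 h3 => absurd ⟨h2, h3⟩ h6, ?_⟩
    intro k hk
    obtain ⟨U, hU1, hU2, hU3⟩ := hU k hk
    exact ⟨U, hU1, hU2, hU3⟩

theorem LMT3u (hLB : ST_LLB2) (hLS : ST_LLSu) (hCX : ST_LCX) (hSQ : ST_LSQ) (hMAP : ST_LMAP)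
    (hGO : ST_KGO) (hPOT : ST_KPOT) (hDF : ST_KDF) (hFP : ST_KFP) (hSIX : ST_SIX) :
    ST_LMT3u := by
  classical
  intro D m
  obtain ⟨CX, hCX0, hCX⟩ := LMT_arch hCX hMAP m
  obtain ⟨C1, hC1⟩ : ∃ C1 : ℝ, C1 = 200 * (D * Real.log 6) := ⟨_, rfl⟩
  have hlog6 : 0 ≤ Real.log 6 := Real.log_nonneg (by norm_num)
  have hC10 : 0 ≤ C1 := by rw [hC1]; positivity
  obtain ⟨C₀, hC₀⟩ : ∃ C₀ : ℝ, C₀ = 2 * C1 + 2 * (D * CX) := ⟨_, rfl⟩
  have hDCX : 0 ≤ (D : ℝ) * CX := mul_nonneg (Nat.cast_nonneg _) hCX0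
  have hC₀0 : 0 ≤ C₀ := by rw [hC₀]; linarith
  refine ⟨C₀, hC₀0, ?_⟩
  intro K _ _ hKD
  obtain ⟨d, hd⟩ : ∃ d : ℝ, d = (Module.finrank ℚ K : ℝ) := ⟨_, rfl⟩
  have hd0 : 0 ≤ d := by rw [hd]; exact Nat.cast_nonneg _
  have hdD : d ≤ D := by rw [hd]; exact_mod_cast hKD
  have hdCX : d * CX ≤ D * CX := mul_le_mul_of_nonneg_right hdD hCX0
  intro A B hD X Y e hg he
  obtain ⟨hfin, hloc, hmulfin, hH1, hH2⟩ := hDF K A B hD
  obtain ⟨S, hS⟩ : ∃ S : Finset (FinitePlace K), ∀ v, v ∈ S ↔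
      ¬ (v 2 = 1 ∧ v 3 = 1 ∧ v A ≤ 1 ∧ v B ≤ 1 ∧ v (dsc A B) = 1) :=
    ⟨hfin.toFinset, fun v => by rw [Set.Finite.mem_toFinset]; rfl⟩
  have hSD : ∀ v : FinitePlace K, v ∉ S → v (dsc A B) = 1 := by
    intro v hv
    rw [hS, not_not] at hv
    exact hv.2.2.2.2
  obtain ⟨ε, hε⟩ : ∃ ε : FinitePlace K → ℝ, ∀ v, ε v = 200 * l6 v :=
    ⟨fun v => 200 * l6 v, fun _ => rfl⟩
  have hε0 : ∀ v, 0 ≤ ε v := by
    intro v
    rw [hε]
    have := ((hSIX K).2.1 v).1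
    linarith
  have hεsum : ∀ T : Finset (FinitePlace K), ∑ v ∈ T, ε v ≤ C1 := by
    intro T
    have h1 : ∑ v ∈ T, ε v = 200 * ∑ v ∈ T, l6 v := by
      rw [Finset.mul_sum]; exact Finset.sum_congr rfl fun v _ => hε v
    have h2 := (hSIX K).2.2.2.1 T
    rw [← hd] at h2
    have h3 : d * Real.log 6 ≤ D * Real.log 6 := mul_le_mul_of_nonneg_right hdD hlog6
    rw [h1, hC1]
    linarith
  choose wf tf hw0 hwδ hex hUf using
    fun v : FinitePlace K => LMT_local2u hLB hLS hFP hSIX K v A B hD m X Y hg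
  choose τ hUi using fun w : InfinitePlace K => hCX K w A B hD X Y hg
  refine ⟨S, wf, tf, fun w i => 12 * τ w i, ?_, hw0, ?_, ?_, ?_⟩
  · intro v hv
    rw [hS, not_not] at hv
    exact ⟨hv.1, hv.2.1, (hloc v).2.2.2.2 hv.1 hv.2.1 hv.2.2.1 hv.2.2.2.1 hv.2.2.2.2⟩
  · refine (Finset.sum_le_sum fun v _ => hwδ v).trans ?_
    rw [Finset.sum_congr rfl fun v _ => (hε v).symm]
    refine (hεsum S).trans ?_
    rw [hC₀]; linarith
  · intro v h2 h3
    exact ⟨(hex v h2 h3).1, (hex v h2 h3).2.2⟩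
  · -- main inequality
    intro k hk
    choose U hU1 hU2 hU3 using fun v : FinitePlace K => hUf v k hk
    choose Ui hUi1 hUi2 hUi3 using fun w : InfinitePlace K => hUi w k hk
    have hcne : ∀ n : ℕ, 1 ≤ n → 4 * cu A B (X (n • k)) ≠ 0 := fun n hn =>
      mul_ne_zero (by norm_num) (LMT_cu hg _ (LMT_smul n hn k hk))
    have hsq := hSQ K m 0 A B X Y hg k hk
    have hpot := hPOT K (fun n => X (n • k)) (fun n => 4 * cu A B (X (n • k))) (e k) (he k hk)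
      hcne S U ε Ui CX (fun v _ n hn => by rw [hε]; exact hU1 v n hn)
      (by
        intro v hv n hn
        have hv' := hv
        rw [hS, not_not] at hv'
        obtain ⟨V, hV, _⟩ := hFP K v
        have := hGO K V (by rw [hV]; exact hv'.1) A B (by rw [hV]; exact hv'.2.2.1)
          (by rw [hV]; exact hv'.2.2.2.1) (by rw [hV]; exact hv'.2.2.2.2) _ _ hsq n hn
        simpa only [hV] using this)
      (fun w n hn => hUi1 w n hn) (fun v _ => hU2 v) (fun w => hUi2 w)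
    have h1 := hpot 12 (by norm_num)
    have h2 : ∑ v ∈ S, (wf v * B2 (pr k (tf v)) + 1 / 6 * Real.log (v (dsc A B)) - ε v) ≤
        ∑ v ∈ S, U v 12 := by
      apply Finset.sum_le_sum
      intro v _
      have := hU3 v 1 le_rfl
      rw [Nat.cast_one, one_mul, mul_one] at this
      rw [hε]
      exact this
    have h3 : ∑ w : InfinitePlace K, (w.mult : ℝ) * (1 / 6 * Real.log (w (dsc A B)) +
        max 0 (Real.log (w (6912 * A ^ 3 / dsc A B))) * B2 (((12 : ℕ) : ℝ) * pr k (τ w)) - CX) ≤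
        ∑ w : InfinitePlace K, (w.mult : ℝ) * Ui w 12 := by
      apply Finset.sum_le_sum
      intro w _
      exact mul_le_mul_of_nonneg_left (hUi3 w 12 (by norm_num)) (Nat.cast_nonneg _)
    have h4 := kmt_prod hD S hSD
    have h5 : ∑ v ∈ S, (wf v * B2 (pr k (tf v)) + 1 / 6 * Real.log (v (dsc A B)) - ε v) =
        ∑ v ∈ S, wf v * B2 (pr k (tf v)) + 1 / 6 * ∑ v ∈ S, Real.log (v (dsc A B)) -
        ∑ v ∈ S, ε v := by
      rw [Finset.sum_sub_distrib, Finset.sum_add_distrib, Finset.mul_sum]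
    have h6 : ∑ w : InfinitePlace K, (w.mult : ℝ) * (1 / 6 * Real.log (w (dsc A B)) +
        max 0 (Real.log (w (6912 * A ^ 3 / dsc A B))) * B2 (((12 : ℕ) : ℝ) * pr k (τ w)) - CX) =
        1 / 6 * ∑ w : InfinitePlace K, (w.mult : ℝ) * Real.log (w (dsc A B)) +
        ∑ w : InfinitePlace K, (w.mult : ℝ) * max 0 (Real.log (w (6912 * A ^ 3 / dsc A B))) *
          B2 (pr k (fun i => 12 * τ w i)) - d * CX := by
      have e1 : ∀ w : InfinitePlace K, (w.mult : ℝ) * (1 / 6 * Real.log (w (dsc A B)) +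
          max 0 (Real.log (w (6912 * A ^ 3 / dsc A B))) * B2 (((12 : ℕ) : ℝ) * pr k (τ w)) -
            CX) =
          1 / 6 * ((w.mult : ℝ) * Real.log (w (dsc A B))) +
            (w.mult : ℝ) * max 0 (Real.log (w (6912 * A ^ 3 / dsc A B))) *
              B2 (pr k (fun i => 12 * τ w i)) - (w.mult : ℝ) * CX := by
        intro w
        rw [LMT_pr]; push_cast; ring
      rw [Finset.sum_congr rfl fun w _ => e1 w, Finset.sum_sub_distrib, Finset.sum_add_distrib,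
        ← Finset.mul_sum, ← Finset.sum_mul]
      have e2 : ∑ w : InfinitePlace K, (w.mult : ℝ) = d := by
        rw [hd, ← InfinitePlace.sum_mult_eq]; push_cast; rfl
      rw [e2]
    have h8 := hεsum S
    have h9 : (((12 : ℕ) : ℝ)) ^ 2 * e k = 144 * e k := by push_cast; ring
    rw [h9, ← hd] at h1
    rw [h5] at h2
    rw [h6] at h3
    have h10 : (0 : ℝ) ≤ ∑ v ∈ S, ε v := Finset.sum_nonneg fun v _ => hε0 v
    rw [hC₀]
    show ∑ v ∈ S, wf v * B2 (pr k (tf v)) +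
      ∑ w : InfinitePlace K, (w.mult : ℝ) * max 0 (Real.log (w (6912 * A ^ 3 / dsc A B))) *
        B2 (pr k (fun i => 12 * τ w i)) - (2 * C1 + 2 * (D * CX)) ≤ 144 * e k
    linarith

end Pool.Agent.Helper66.UNI
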